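import Pool.Agent.H81.D3.Targets

/-!
MP_ee74d2_an, dimension 3, below 10/3: row BLA (choice of the ball and of one circle for each point)
of the board of helper81.
-/

set_option autoImplicit false

namespace Pool.Agent.H23.D3

open MeasureTheory Set Pool.Agent.H83.G Pool.Agent.H81.D3

theorem bla_num1 {p q w H D E c : ℝ} (hw : 1 ≤ w) (hH : 0 < H)
    (hD : 1 ≤ D) (hc : c ≤ D) (hE : 0 < E)
    (h1 : p * w ^ 4 * H ^ (10 / 3 : ℝ) * w ^ (2 / 3 : ℝ) ≤ D * c * E)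
    (h2 : E ≤ D * (q * H ^ (10 / 3 : ℝ) * w ^ (2 / 3 : ℝ))) : p * w ^ 4 ≤ D ^ 3 * q := by
  have hpos : 0 < H ^ (10 / 3 : ℝ) * w ^ (2 / 3 : ℝ) := by positivity
  have h3 : p * w ^ 4 * (H ^ (10 / 3 : ℝ) * w ^ (2 / 3 : ℝ)) ≤
      D ^ 3 * q * (H ^ (10 / 3 : ℝ) * w ^ (2 / 3 : ℝ)) := by
    calc p * w ^ 4 * (H ^ (10 / 3 : ℝ) * w ^ (2 / 3 : ℝ)) =
        p * w ^ 4 * H ^ (10 / 3 : ℝ) * w ^ (2 / 3 : ℝ) := by ring
      _ ≤ D * c * E := h1
      _ ≤ D * D * E := by gcongr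
      _ ≤ D * D * (D * (q * H ^ (10 / 3 : ℝ) * w ^ (2 / 3 : ℝ))) := by gcongr
      _ = D ^ 3 * q * (H ^ (10 / 3 : ℝ) * w ^ (2 / 3 : ℝ)) := by ring
  exact le_of_mul_le_mul_right h3 hpos

theorem bla_num2 {x q w H H₀ D E c : ℝ} (hq : 0 ≤ q) (hw : 1 ≤ w) (hH : 0 < H)
    (hH₀ : 0 < H₀) (hD : 1 ≤ D) (hc : c ≤ D) (hE : 0 < E)
    (h1 : x * H₀ ^ (10 / 3 : ℝ) ≤ c * E)
    (h2 : E ≤ D * (q * H ^ (10 / 3 : ℝ) * w ^ (2 / 3 : ℝ)))
    (h3 : H ^ 2 * w ≤ D * H₀ ^ 2) : w * x ≤ D ^ 4 * q := by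
  have hw0 : 0 < w := by linarith
  have hD0 : 0 < D := by linarith
  have h4 : H ^ (10 / 3 : ℝ) * w ^ (5 / 3 : ℝ) ≤ D ^ (5 / 3 : ℝ) * H₀ ^ (10 / 3 : ℝ) := by
    have h5 := Real.rpow_le_rpow (by positivity) h3 (show (0 : ℝ) ≤ 5 / 3 by norm_num)
    rw [Real.mul_rpow (by positivity) (by positivity), Real.mul_rpow (by positivity) (by positivity),
      ← Real.rpow_natCast H 2, ← Real.rpow_natCast H₀ 2, ← Real.rpow_mul hH.le,
      ← Real.rpow_mul hH₀.le] at h5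
    norm_num at h5
    exact h5
  have h6 : D ^ (5 / 3 : ℝ) ≤ D ^ 2 := by
    rw [← Real.rpow_natCast D 2]
    exact Real.rpow_le_rpow_of_exponent_le hD (by norm_num)
  have h7 : w ^ (2 / 3 : ℝ) * w = w ^ (5 / 3 : ℝ) := by
    nth_rewrite 2 [← Real.rpow_one w]
    rw [← Real.rpow_add hw0]; norm_num
  have hpos : 0 < H₀ ^ (10 / 3 : ℝ) := by positivity
  have h8 : w * x * H₀ ^ (10 / 3 : ℝ) ≤ D ^ 4 * q * H₀ ^ (10 / 3 : ℝ) := by
    calc w * x * H₀ ^ (10 / 3 : ℝ) = w * (x * H₀ ^ (10 / 3 : ℝ)) := by ring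
      _ ≤ w * (c * E) := by gcongr
      _ ≤ w * (D * E) := by gcongr
      _ ≤ w * (D * (D * (q * H ^ (10 / 3 : ℝ) * w ^ (2 / 3 : ℝ)))) := by gcongr
      _ = D ^ 2 * q * (H ^ (10 / 3 : ℝ) * (w ^ (2 / 3 : ℝ) * w)) := by ring
      _ = D ^ 2 * q * (H ^ (10 / 3 : ℝ) * w ^ (5 / 3 : ℝ)) := by rw [h7]
      _ ≤ D ^ 2 * q * (D ^ (5 / 3 : ℝ) * H₀ ^ (10 / 3 : ℝ)) := by gcongr
      _ ≤ D ^ 2 * q * (D ^ 2 * H₀ ^ (10 / 3 : ℝ)) := by gcongr
      _ = D ^ 4 * q * H₀ ^ (10 / 3 : ℝ) := by ring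
  exact le_of_mul_le_mul_right h8 hpos

/-- the cells of the points near a point -/
theorem floor_diff {a b r N : ℝ} (hr : 0 < r) (h : |a - b| ≤ N * r) :
    |((⌊a / r⌋ : ℤ) : ℝ) - ((⌊b / r⌋ : ℤ) : ℝ)| ≤ N + 1 := by
  have h1 : |a / r - b / r| ≤ N := by
    rw [← sub_div, abs_div, abs_of_pos hr, div_le_iff₀ hr]; exact h
  have h2 := Int.floor_le (a / r)
  have h3 := Int.lt_floor_add_one (a / r)
  have h4 := Int.floor_le (b / r)
  have h5 := Int.lt_floor_add_one (b / r)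
  rw [abs_le] at h1 ⊢
  constructor <;> linarith [h1.1, h1.2]

theorem mem_Icc_of {a b : ℤ} {N : ℕ} (h : |(a : ℝ) - (b : ℝ)| ≤ N) :
    a ∈ Finset.Icc (b - N) (b + N) := by
  rw [abs_le] at h
  rw [Finset.mem_Icc]
  constructor
  · have h1 : (b : ℝ) - N ≤ a := by linarith [h.1]
    exact_mod_cast h1
  · have h1 : (a : ℝ) ≤ b + N := by linarith [h.2]
    exact_mod_cast h1

open scoped Classical in
theorem cells_card (r B : ℝ) (hr : 0 < r) (hB : 1 ≤ B) (z₀ : Z 2) (S : Finset (Zi 2))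
    (h : ∀ c ∈ S, ∃ z : Z 2, ‖z - z₀‖ ≤ B * r ∧ cb r z = c) : (S.card : ℝ) ≤ (7 * B) ^ 4 := by
  obtain ⟨N, hN⟩ : ∃ N : ℕ, N = ⌈B + 1⌉₊ := ⟨_, rfl⟩
  have hN1 : B + 1 ≤ N := by rw [hN]; exact Nat.le_ceil _
  have hN2 : (N : ℝ) ≤ B + 2 := by
    rw [hN]
    have := Nat.ceil_lt_add_one (show 0 ≤ B + 1 by linarith)
    linarith
  set T : Finset (Zi 2) := (Finset.Icc ((cb r z₀).1 - N) ((cb r z₀).1 + N)) ×ˢ
    ((Fintype.piFinset fun i => Finset.Icc ((cb r z₀).2.1 i - N) ((cb r z₀).2.1 i + N)) ×ˢ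
      (Finset.Icc ((cb r z₀).2.2 - N) ((cb r z₀).2.2 + N))) with hT
  have hsub : S ⊆ T := by
    intro c hc
    obtain ⟨z, hz, rfl⟩ := h c hc
    have n1 : |z.1 - z₀.1| ≤ B * r := le_trans (by
      rw [Prod.norm_def]; exact le_max_left _ _) hz
    have n2 : ‖z.2.1 - z₀.2.1‖ ≤ B * r := le_trans (by
      rw [Prod.norm_def, Prod.norm_def]; exact (le_max_left _ _).trans (le_max_right _ _)) hz
    have n3 : |z.2.2 - z₀.2.2| ≤ B * r := le_trans (by
      rw [Prod.norm_def, Prod.norm_def]; exact (le_max_right _ _).trans (le_max_right _ _)) hz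
    rw [hT, Finset.mem_product, Finset.mem_product]
    refine ⟨mem_Icc_of ((floor_diff hr n1).trans hN1), ?_, mem_Icc_of ((floor_diff hr n3).trans hN1)⟩
    rw [Fintype.mem_piFinset]
    intro i
    refine mem_Icc_of ((floor_diff hr ?_).trans hN1)
    have n4 := PiLp.norm_apply_le (z.2.1 - z₀.2.1) i
    rw [Real.norm_eq_abs] at n4
    exact n4.trans n2
  have hcard : (T.card : ℝ) = (2 * N + 1) ^ 4 := by
    have hI : ∀ a : ℤ, (Finset.Icc (a - N) (a + N)).card = 2 * N + 1 := by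
      intro a; rw [Int.card_Icc]; omega
    rw [hT, Finset.card_product, Finset.card_product, Fintype.card_piFinset]
    simp only [hI, Finset.prod_const, Finset.card_univ, Fintype.card_fin]
    push_cast; ring
  calc (S.card : ℝ) ≤ T.card := by exact_mod_cast Finset.card_le_card hsub
    _ = (2 * N + 1) ^ 4 := hcard
    _ ≤ (7 * B) ^ 4 := by
      refine pow_le_pow_left₀ (by positivity) ?_ 4
      linarith

/-- for each point one of `n` classes: a subset with `1/n` of the elements -/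
theorem one_class {α : Type} [DecidableEq α] {n : ℕ} (hn : 1 ≤ n) (Q : Finset (α × Pq))
    (A : α → Fin n → Pq → Prop) (h : ∀ e ∈ Q, ∃ j, A e.1 j e.2) :
    ∃ (J : α → Fin n) (F : Finset (α × Pq)), F ⊆ Q ∧ (∀ e ∈ F, A e.1 (J e.1) e.2) ∧
      Q.card ≤ n * F.card := by
  classical
  have : Nonempty (Fin n) := ⟨⟨0, hn⟩⟩
  have hmax : ∀ z : α, ∃ j : Fin n, ∀ j' : Fin n,
      (Q.filter fun e => e.1 = z ∧ A z j' e.2).card ≤ (Q.filter fun e => e.1 = z ∧ A z j e.2).card := by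
    intro z
    obtain ⟨j, -, hj⟩ := Finset.exists_max_image Finset.univ
      (fun j : Fin n => (Q.filter fun e => e.1 = z ∧ A z j e.2).card) Finset.univ_nonempty
    exact ⟨j, fun j' => hj j' (Finset.mem_univ _)⟩
  choose J hJ using hmax
  refine ⟨J, Q.filter fun e => A e.1 (J e.1) e.2, Finset.filter_subset _ _, ?_, ?_⟩
  · intro e he; exact (Finset.mem_filter.1 he).2
  · have h1 : Q.card = ∑ z ∈ Q.image (fun e => e.1), (Q.filter fun e => e.1 = z).card :=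
      Finset.card_eq_sum_card_image _ _
    have h2 : (Q.filter fun e => A e.1 (J e.1) e.2).card =
        ∑ z ∈ Q.image (fun e => e.1), ((Q.filter fun e => A e.1 (J e.1) e.2).filter
          fun e => e.1 = z).card :=
      Finset.card_eq_sum_card_fiberwise (fun e he =>
        Finset.mem_coe.2 (Finset.mem_image_of_mem _ (Finset.mem_filter.1 (Finset.mem_coe.1 he)).1))
    rw [h1, h2, Finset.mul_sum]
    refine Finset.sum_le_sum fun z _ => ?_
    have h3 : ((Q.filter fun e => A e.1 (J e.1) e.2).filter fun e => e.1 = z) =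
        (Q.filter fun e => e.1 = z ∧ A z (J z) e.2) := by
      ext e
      simp only [Finset.mem_filter]
      constructor
      · rintro ⟨⟨a, b⟩, c⟩; rw [c] at b; exact ⟨a, c, b⟩
      · rintro ⟨a, c, b⟩; rw [← c] at b; exact ⟨⟨a, b⟩, c⟩
    rw [h3]
    calc (Q.filter fun e => e.1 = z).card ≤
        (Finset.univ.biUnion fun j : Fin n => (Q.filter fun e => e.1 = z ∧ A z j e.2)).card := by
          refine Finset.card_le_card ?_
          intro e he
          obtain ⟨he1, he2⟩ := Finset.mem_filter.1 he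
          obtain ⟨j, hj⟩ := h e he1
          rw [he2] at hj
          exact Finset.mem_biUnion.2 ⟨j, Finset.mem_univ _, Finset.mem_filter.2 ⟨he1, he2, hj⟩⟩
      _ ≤ ∑ j : Fin n, (Q.filter fun e => e.1 = z ∧ A z j e.2).card := Finset.card_biUnion_le
      _ ≤ ∑ _j : Fin n, (Q.filter fun e => e.1 = z ∧ A z (J z) e.2).card :=
          Finset.sum_le_sum fun j _ => hJ z j
      _ = n * (Q.filter fun e => e.1 = z ∧ A z (J z) e.2).card := by simp

open scoped Classical in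
/-- choice of the cell -/
theorem one_cell (Q : Finset (Z 2 × Pq)) (X : Finset (Z 2)) (P : Finset Pq) (c : Z 2 → Zi 2)
    (hQ : Q.Nonempty) (hX : ∀ e ∈ Q, e.1 ∈ X) (hP : ∀ e ∈ Q, e.2 ∈ P) (s t M B : ℝ) (hs : 0 ≤ s)
    (ht : 0 ≤ t) (hM : ∀ p ∈ P, ∀ S : Finset (Zi 2), (∀ i ∈ S, ∃ z, (z, p) ∈ Q ∧ c z = i) →
      (S.card : ℝ) ≤ M)
    (hB : s * X.card + t * (M * P.card) ≤ B * Q.card) :
    ∃ q : Zi 2, (Q.filter fun e => c e.1 = q).Nonempty ∧
      s * (((Q.filter fun e => c e.1 = q).image fun e => e.1).card : ℝ) +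
      t * (((Q.filter fun e => c e.1 = q).image fun e => e.2).card : ℝ) ≤
      B * ((Q.filter fun e => c e.1 = q).card : ℝ) := by
  set CC := Q.image fun e => c e.1 with hCC
  have hne : CC.Nonempty := hQ.image _
  have h1 : (Q.card : ℝ) = ∑ q ∈ CC, ((Q.filter fun e => c e.1 = q).card : ℝ) := by
    have := Finset.card_eq_sum_card_image (fun e : Z 2 × Pq => c e.1) Q
    exact_mod_cast this
  have h2 : ∑ q ∈ CC, (((Q.filter fun e => c e.1 = q).image fun e => e.1).card : ℝ) ≤ X.card := by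
    have h3 : ∑ q ∈ CC, ((Q.filter fun e => c e.1 = q).image fun e => e.1).card ≤ X.card := by
      rw [← Finset.card_biUnion]
      · refine Finset.card_le_card ?_
        intro z hz
        obtain ⟨q, -, hz⟩ := Finset.mem_biUnion.1 hz
        obtain ⟨e, he, rfl⟩ := Finset.mem_image.1 hz
        exact hX e (Finset.mem_filter.1 he).1
      · intro q _ q' _ hqq
        rw [Function.onFun, Finset.disjoint_left]
        intro z hz hz'
        obtain ⟨e, he, rfl⟩ := Finset.mem_image.1 hz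
        obtain ⟨e', he', h4⟩ := Finset.mem_image.1 hz'
        apply hqq
        rw [← (Finset.mem_filter.1 he).2, ← (Finset.mem_filter.1 he').2, h4]
    exact_mod_cast h3
  have h3 : ∑ q ∈ CC, (((Q.filter fun e => c e.1 = q).image fun e => e.2).card : ℝ) ≤ M * P.card := by
    have h4 : ∑ q ∈ CC, ((Q.filter fun e => c e.1 = q).image fun e => e.2).card ≤
        ∑ q ∈ CC, (Finset.bipartiteAbove (fun q p => ∃ z, (z, p) ∈ Q ∧ c z = q) P q).card := by
      refine Finset.sum_le_sum fun q _ => Finset.card_le_card ?_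
      intro p hp
      obtain ⟨e, he, rfl⟩ := Finset.mem_image.1 hp
      obtain ⟨he1, he2⟩ := Finset.mem_filter.1 he
      exact Finset.mem_filter.2 ⟨hP e he1, e.1, he1, he2⟩
    rw [Finset.sum_card_bipartiteAbove_eq_sum_card_bipartiteBelow] at h4
    calc ∑ q ∈ CC, (((Q.filter fun e => c e.1 = q).image fun e => e.2).card : ℝ) ≤
        ∑ p ∈ P, ((Finset.bipartiteBelow (fun q p => ∃ z, (z, p) ∈ Q ∧ c z = q) CC p).card : ℝ) := by
          exact_mod_cast h4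
      _ ≤ ∑ _p ∈ P, M := by
          refine Finset.sum_le_sum fun p hp => hM p hp _ ?_
          intro i hi
          exact (Finset.mem_filter.1 hi).2
      _ = M * P.card := by rw [Finset.sum_const, nsmul_eq_mul, mul_comm]
  have h5 : ∑ q ∈ CC, (s * (((Q.filter fun e => c e.1 = q).image fun e => e.1).card : ℝ) +
      t * (((Q.filter fun e => c e.1 = q).image fun e => e.2).card : ℝ)) ≤
      ∑ q ∈ CC, B * ((Q.filter fun e => c e.1 = q).card : ℝ) := by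
    rw [Finset.sum_add_distrib, ← Finset.mul_sum, ← Finset.mul_sum, ← Finset.mul_sum, ← h1]
    refine le_trans ?_ hB
    gcongr
  obtain ⟨q, hq, hle⟩ := Finset.exists_le_of_sum_le hne h5
  refine ⟨q, ?_, hle⟩
  obtain ⟨e, he, rfl⟩ := Finset.mem_image.1 hq
  exact ⟨e, Finset.mem_filter.2 ⟨he, rfl⟩⟩

open scoped Classical in
theorem pf_BLA (hGSB : T_GSB) (hCMP : T_CMP) (hPTS : T_PTS) (hMON : T_MON) : T_BLA := by
  obtain ⟨Cm, hCm, -, hcoord, -⟩ := hCMP
  refine ⟨9, by norm_num, ?_⟩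
  intro L β hL hβ
  obtain ⟨Cg, hCg, hGSB⟩ := hGSB L β hL hβ
  obtain ⟨C₁, hC₁⟩ : ∃ C₁ : ℝ, C₁ = 1 + (28 * Cm) ^ 4 := ⟨_, rfl⟩
  have hC₁1 : 1 ≤ C₁ := by rw [hC₁]; linarith [show 0 ≤ (28 * Cm) ^ 4 by positivity]
  refine ⟨Cg + 2 * C₁, by linarith, ?_⟩
  intro ε Cb R A H₀ D H G X K₁ n w P Q hR hA hH₀ hε hCb hE43 hG hX hXH hE hSt hwR hCD hn hnD
  have hst : St β G (En43 A R G) H₀ D X w H P Q := hSt.toSt
  have hD1 := hst.D1
  have hH := hst.H0
  have hw1 := hst.w1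
  have hw : (1 : ℝ) ≤ w := by exact_mod_cast hw1
  have hRe : 1 ≤ R ^ ε := Real.one_le_rpow hR hε.le
  have hCR : 1 ≤ Cb * R ^ ε := one_le_mul_of_one_le_of_one_le hCb hRe
  have hCgD : Cg * Cb * R ^ ε ≤ D := by
    refine le_trans ?_ hCD
    rw [mul_assoc, mul_assoc]
    exact mul_le_mul_of_nonneg_right (by linarith) (by linarith)
  have hCD1 : 2 * C₁ ≤ D := by
    refine le_trans ?_ hCD
    rw [mul_assoc]
    have : Cg + 2 * C₁ ≤ (Cg + 2 * C₁) * (Cb * R ^ ε) := le_mul_of_one_le_right (by linarith) hCR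
    linarith
  have hCRD : Cb * R ^ ε ≤ D := by
    refine le_trans ?_ hCgD
    rw [mul_assoc]
    exact le_mul_of_one_le_left (by linarith) hCg
  -- (1)
  have s1 : (P.card : ℝ) * (w : ℝ) ^ 4 ≤ D ^ 3 * Q.card := by
    refine bla_num1 hw hH hD1 hCgD hE ?_ hst.low
    refine (hGSB ε Cb R A D H w G P hE43 hε hCb hR hA hH hD1 hw1 hwR hG hst.sep hst.tg hst.pk).trans ?_
    apply le_of_eq; ring
  -- (2)
  have s2 : (w : ℝ) * X.card ≤ D ^ 4 * Q.card := by
    refine bla_num2 (by positivity) hw hH hH₀ hD1 hCRD hE ?_ hst.low hst.lev2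
    exact hE43 R A H₀ G X hR hA hH₀ hG hX hXH
  have hQ : Q.Nonempty := by
    rw [Finset.nonempty_iff_ne_empty]
    rintro rfl
    have := hst.low
    simp at this
    linarith
  have hr : (0 : ℝ) < (w : ℝ) ^ 2 / 2 := by positivity
  -- (3)
  have hcell : ∀ p ∈ P, ∀ S : Finset (Zi 2),
      (∀ i ∈ S, ∃ z, (z, p) ∈ Q ∧ cb ((w : ℝ) ^ 2 / 2) z = i) → (S.card : ℝ) ≤ (7 * (4 * Cm * D)) ^ 4 := by
    intro p hp S hS
    rcases S.eq_empty_or_nonempty with rfl | ⟨i₀, hi₀⟩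
    · simp; positivity
    obtain ⟨z₀, hz₀, -⟩ := hS i₀ hi₀
    refine cells_card _ (4 * Cm * D) hr (by nlinarith) z₀ S ?_
    intro i hi
    obtain ⟨z, hz, hzi⟩ := hS i hi
    refine ⟨z, ?_, hzi⟩
    have h1 := (hst.rel _ hz).2.2
    have h2 := (hst.rel _ hz₀).2.2
    simp only at h1 h2
    obtain ⟨a1, -, -⟩ := hcoord w p.2.1 z z₀ hw1 (hst.pk p hp).1
    obtain ⟨-, -, a3, -⟩ := hcoord w p.2.1 (z - z₀) z₀ hw1 (hst.pk p hp).1
    have h3 : ‖Lc w p.2.1 (z - z₀)‖ ≤ 2 * D := by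
      rw [a1]
      have h4 : Lc w p.2.1 z - Lc w p.2.1 z₀ = (Lc w p.2.1 z - p.2.2) - (Lc w p.2.1 z₀ - p.2.2) := by abel
      rw [h4]
      refine (norm_sub_le _ _).trans ?_
      linarith
    refine a3.trans ?_
    calc Cm * (w : ℝ) ^ 2 * ‖Lc w p.2.1 (z - z₀)‖ ≤ Cm * (w : ℝ) ^ 2 * (2 * D) := by gcongr
      _ = 4 * Cm * D * ((w : ℝ) ^ 2 / 2) := by ring
  obtain ⟨q, hqne, hq⟩ := one_cell Q X P (cb ((w : ℝ) ^ 2 / 2)) hQ (fun e he => (hst.rel e he).1)
    (fun e he => (hst.rel e he).2.1) w ((w : ℝ) ^ 4) ((7 * (4 * Cm * D)) ^ 4) (C₁ * D ^ 7)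
    (by positivity) (by positivity) hcell (by
      have e1 : (w : ℝ) ^ 4 * ((7 * (4 * Cm * D)) ^ 4 * P.card) ≤ (28 * Cm) ^ 4 * D ^ 7 * Q.card := by
        calc (w : ℝ) ^ 4 * ((7 * (4 * Cm * D)) ^ 4 * P.card) =
            (28 * Cm) ^ 4 * D ^ 4 * (P.card * (w : ℝ) ^ 4) := by ring
          _ ≤ (28 * Cm) ^ 4 * D ^ 4 * (D ^ 3 * Q.card) := by gcongr
          _ = (28 * Cm) ^ 4 * D ^ 7 * Q.card := by ring
      have e2 : D ^ 4 * (Q.card : ℝ) ≤ D ^ 7 * Q.card := by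
        exact mul_le_mul_of_nonneg_right (pow_le_pow_right₀ hD1 (by norm_num)) (by positivity)
      rw [hC₁]
      nlinarith)
  set Qc := Q.filter fun e => cb ((w : ℝ) ^ 2 / 2) e.1 = q with hQc
  -- (4)
  choose V hV1 hV2 using hSt.top
  obtain ⟨J, F, hFQ, hFA, hFc⟩ := one_class hn Qc
    (fun z j p => ∃ η ∈ Cz (V z j), ‖ctr (K₁ : ℝ)⁻¹ p.1 - η‖ ≤ 3 / K₁)
    (fun e he => hV2 e.1 e (Finset.mem_filter.1 he).1 rfl)
  have hFne : 0 < F.card := by
    rcases Nat.eq_zero_or_pos F.card with h0 | h0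
    · rw [h0, mul_zero] at hFc
      have := hqne.card_pos
      omega
    · exact h0
  have hFc' : (Qc.card : ℝ) ≤ D * F.card := by
    have : (Qc.card : ℝ) ≤ n * F.card := by exact_mod_cast hFc
    refine this.trans ?_
    gcongr
  refine ⟨q, F, fun z => V z (J z), hFQ.trans (Finset.filter_subset _ _), Finset.card_pos.1 hFne, ?_,
    fun z => hV1 z _, ?_, ?_⟩
  · intro e he
    exact (Finset.mem_filter.1 (hFQ he)).2
  · intro e he
    exact hFA e he
  · have h1 : ((F.image fun e => e.1).card : ℝ) ≤ (Qc.image fun e => e.1).card := by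
      exact_mod_cast Finset.card_le_card (Finset.image_subset_image hFQ)
    have h2 : ((F.image fun e => e.2).card : ℝ) ≤ (Qc.image fun e => e.2).card := by
      exact_mod_cast Finset.card_le_card (Finset.image_subset_image hFQ)
    have hF0 : (0 : ℝ) < F.card := by exact_mod_cast hFne
    calc (w : ℝ) * (F.image fun e => e.1).card + (w : ℝ) ^ 4 * (F.image fun e => e.2).card ≤
        (w : ℝ) * (Qc.image fun e => e.1).card + (w : ℝ) ^ 4 * (Qc.image fun e => e.2).card := by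
          gcongr
      _ ≤ C₁ * D ^ 7 * Qc.card := hq
      _ ≤ C₁ * D ^ 7 * (D * F.card) := by gcongr
      _ = C₁ * (D ^ 8 * F.card) := by ring
      _ < D * (D ^ 8 * F.card) := by
          refine mul_lt_mul_of_pos_right (by linarith) (by positivity)
      _ = D ^ (9 : ℝ) * F.card := by
          have : D ^ (9 : ℝ) = D ^ 9 := by
            rw [← Real.rpow_natCast D 9]; norm_num
          rw [this]; ring

end Pool.Agent.H23.D3
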