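import Pool.Agent.H81.D3.Targets

/-!
MP_ee74d2_an, dimension 3, below 10/3: row BLL (the configuration in one ball) of the board of
helper81.
-/

set_option autoImplicit false

namespace Pool.Agent.H23.D3

open MeasureTheory Set Pool.Agent.H83.G Pool.Agent.H81.D3
open Pool.Agent.H22.G4 (nv)
open Pool.Agent.H91.EL (Conf PC PZ XP qB ll qB_ll qB_comm)
open scoped RealInnerProductSpace

theorem card_image_inst {α β : Type} (i j : DecidableEq β) (f : α → β) (s : Finset α) :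
    (@Finset.image α β i f s).card = (@Finset.image α β j f s).card := by
  have : i = j := Subsingleton.elim _ _
  subst this; rfl

/-- the caps near a direction -/
theorem caps_near (w : ℝ) (hw : 0 < w) (η₀ : E 2) (S : Finset (Fin 2 → ℤ))
    (h : ∀ κ ∈ S, ‖ctr w⁻¹ κ - η₀‖ ≤ w⁻¹) : (S.card : ℝ) ≤ 49 := by
  classical
  set T : Finset (Fin 2 → ℤ) := Fintype.piFinset fun i =>
    Finset.Icc ⌈3 * w * η₀ i - 3⌉ ⌊3 * w * η₀ i + 3⌋ with hT
  have hsub : S ⊆ T := by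
    intro κ hκ
    rw [hT, Fintype.mem_piFinset]
    intro i
    have h1 := (PiLp.norm_apply_le (ctr w⁻¹ κ - η₀) i).trans (h κ hκ)
    have h2 : (ctr w⁻¹ κ - η₀) i = w⁻¹ / 3 * κ i - η₀ i := by
      simp only [ctr, PiLp.sub_apply, PiLp.smul_apply, smul_eq_mul, Nat.cast_ofNat]
      norm_num
    rw [h2, Real.norm_eq_abs] at h1
    have h3 : w⁻¹ / 3 * κ i - η₀ i = (w⁻¹ / 3) * (κ i - 3 * w * η₀ i) := by
      field_simp
    rw [h3, abs_mul, abs_of_pos (by positivity)] at h1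
    have h4 : |(κ i : ℝ) - 3 * w * η₀ i| ≤ 3 := by
      have h5 : (w⁻¹ / 3) * |(κ i : ℝ) - 3 * w * η₀ i| ≤ (w⁻¹ / 3) * 3 := by linarith
      exact le_of_mul_le_mul_left h5 (by positivity)
    rw [abs_le] at h4
    rw [Finset.mem_Icc, Int.ceil_le, Int.le_floor]
    constructor <;> linarith [h4.1, h4.2]
  have hcard : T.card ≤ 49 := by
    rw [hT, Fintype.card_piFinset]
    have hI : ∀ i : Fin 2, (Finset.Icc ⌈3 * w * η₀ i - 3⌉ ⌊3 * w * η₀ i + 3⌋).card ≤ 7 := by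
      intro i
      rw [Int.card_Icc]
      have a1 := Int.floor_le (3 * w * η₀ i + 3)
      have a2 := Int.le_ceil (3 * w * η₀ i - 3)
      have a3 : ((⌊3 * w * η₀ i + 3⌋ : ℤ) : ℝ) - ((⌈3 * w * η₀ i - 3⌉ : ℤ) : ℝ) ≤ 6 := by linarith
      have a4 : ⌊3 * w * η₀ i + 3⌋ - ⌈3 * w * η₀ i - 3⌉ ≤ 6 := by exact_mod_cast a3
      omega
    calc ∏ i : Fin 2, (Finset.Icc ⌈3 * w * η₀ i - 3⌉ ⌊3 * w * η₀ i + 3⌋).card ≤ ∏ _i : Fin 2, 7 :=
        Finset.prod_le_prod' fun i _ => hI i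
      _ = 49 := by simp
  exact_mod_cast (Finset.card_le_card hsub).trans hcard

open scoped Classical in
/-- counting planks by caps, tags and points -/
theorem count3 (S : Finset Pq) (c₁ c₂ c₃ : ℝ) (h₂ : 0 ≤ c₂) (h₃ : 0 ≤ c₃)
    (h1 : ((S.image fun p => p.2.1).card : ℝ) ≤ c₁)
    (h2 : ∀ κ, (((S.filter fun p => p.2.1 = κ).image fun p => p.1).card : ℝ) ≤ c₂)
    (h3 : ∀ t κ, ((S.filter fun p => p.1 = t ∧ p.2.1 = κ).card : ℝ) ≤ c₃) :
    (S.card : ℝ) ≤ c₁ * (c₂ * c₃) := by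
  have e1 : (S.card : ℝ) = ∑ κ ∈ S.image (fun p => p.2.1), ((S.filter fun p => p.2.1 = κ).card : ℝ) := by
    exact_mod_cast Finset.card_eq_sum_card_image (fun p : Pq => p.2.1) S
  have e2 : ∀ κ, ((S.filter fun p => p.2.1 = κ).card : ℝ) ≤ c₂ * c₃ := by
    intro κ
    have e3 : ((S.filter fun p => p.2.1 = κ).card : ℝ) =
        ∑ t ∈ (S.filter fun p => p.2.1 = κ).image (fun p => p.1),
          (((S.filter fun p => p.2.1 = κ).filter fun p => p.1 = t).card : ℝ) := by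
      exact_mod_cast Finset.card_eq_sum_card_image (fun p : Pq => p.1) (S.filter fun p => p.2.1 = κ)
    rw [e3]
    calc ∑ t ∈ (S.filter fun p => p.2.1 = κ).image (fun p => p.1),
          (((S.filter fun p => p.2.1 = κ).filter fun p => p.1 = t).card : ℝ) ≤
        ∑ _t ∈ (S.filter fun p => p.2.1 = κ).image (fun p => p.1), c₃ := by
          refine Finset.sum_le_sum fun t _ => ?_
          have e4 : ((S.filter fun p => p.2.1 = κ).filter fun p => p.1 = t) =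
              S.filter fun p => p.1 = t ∧ p.2.1 = κ := by
            ext p; simp only [Finset.mem_filter]; tauto
          rw [e4]; exact h3 t κ
      _ = ((S.filter fun p => p.2.1 = κ).image (fun p => p.1)).card * c₃ := by
          rw [Finset.sum_const, nsmul_eq_mul]
      _ ≤ c₂ * c₃ := mul_le_mul_of_nonneg_right (h2 κ) h₃
  rw [e1]
  calc ∑ κ ∈ S.image (fun p => p.2.1), ((S.filter fun p => p.2.1 = κ).card : ℝ) ≤
      ∑ _κ ∈ S.image (fun p => p.2.1), c₂ * c₃ := Finset.sum_le_sum fun κ _ => e2 κ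
    _ = (S.image fun p => p.2.1).card * (c₂ * c₃) := by rw [Finset.sum_const, nsmul_eq_mul]
    _ ≤ c₁ * (c₂ * c₃) := mul_le_mul_of_nonneg_right h1 (by positivity)

/-- the points of planks with given tag and cap near a point -/
theorem count_pts {Cp r : ℝ} {P S : Finset Pq} (hr : 1 ≤ r)
    (hPTS : ∀ (D : ℝ) (x : Z 2) (Y : Finset (Z 2)), 1 ≤ D → Sep Y → (∀ z ∈ Y, ‖z - x‖ ≤ D) →
      (Y.card : ℝ) ≤ Cp * D ^ 4) (hsep : PSep P) (hS : S ⊆ P) (t κ : Fin 2 → ℤ) (x : Z 2)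
    (h : ∀ p ∈ S, p.1 = t ∧ p.2.1 = κ ∧ ‖p.2.2 - x‖ ≤ r) : (S.card : ℝ) ≤ Cp * r ^ 4 := by
  classical
  have hinj : Set.InjOn (fun p : Pq => p.2.2) S := by
    intro p hp p' hp' hh
    have h1 := h p hp
    have h2 := h p' hp'
    exact Prod.ext (by rw [h1.1, h2.1]) (Prod.ext (by rw [h1.2.1, h2.2.1]) hh)
  rw [← Finset.card_image_of_injOn hinj]
  refine hPTS r x _ hr ?_ ?_
  · intro y hy y' hy' hne
    obtain ⟨p, hp, rfl⟩ := Finset.mem_image.1 hy
    obtain ⟨p', hp', rfl⟩ := Finset.mem_image.1 hy'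
    have h1 := h p hp
    have h2 := h p' hp'
    refine hsep p (hS hp) p' (hS hp') ?_ (by rw [h1.1, h2.1]) (by rw [h1.2.1, h2.2.1])
    intro hh; exact hne (by rw [hh])
  · intro y hy
    obtain ⟨p, hp, rfl⟩ := Finset.mem_image.1 hy
    exact (h p hp).2.2

/-- the points of a cell -/
theorem cell_ball {r : ℝ} (hr : 0 < r) (z : Z 2) (q : Zi 2) (h : cb r z = q) :
    ‖z - r • zc q‖ ≤ 2 * r := by
  subst h
  have hf : ∀ x : ℝ, |x - r * ((⌊x / r⌋ : ℤ) : ℝ)| ≤ r := by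
    intro x
    have h1 := Int.floor_le (x / r)
    have h2 := Int.lt_floor_add_one (x / r)
    have h3 : x = r * (x / r) := by field_simp
    rw [abs_le]
    constructor
    · nlinarith
    · nlinarith
  rw [Prod.norm_def, Prod.norm_def]
  refine max_le ?_ (max_le ?_ ?_)
  · have := hf z.1
    simp only [cb, zc, Prod.fst_sub, Prod.smul_fst, smul_eq_mul, Real.norm_eq_abs]
    linarith
  · have h4 : ‖(z - r • zc (cb r z)).2.1‖ ^ 2 ≤ (2 * r) ^ 2 := by
      rw [EuclideanSpace.norm_sq_eq, Fin.sum_univ_two]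
      have a0 := hf (z.2.1 0)
      have a1 := hf (z.2.1 1)
      simp only [cb, zc, Prod.snd_sub, Prod.fst_sub, Prod.smul_snd, Prod.smul_fst, smul_eq_mul,
        Real.norm_eq_abs, PiLp.sub_apply, PiLp.smul_apply, sq_abs]
      have b0 := sq_le_sq' (abs_le.1 a0).1 (abs_le.1 a0).2
      have b1 := sq_le_sq' (abs_le.1 a1).1 (abs_le.1 a1).2
      nlinarith
    exact (pow_le_pow_iff_left₀ (norm_nonneg _) (by positivity) two_ne_zero).1 h4
  · have := hf z.2.2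
    simp only [cb, zc, Prod.snd_sub, Prod.smul_snd, smul_eq_mul, Real.norm_eq_abs]
    linarith

/-- the normal -/
theorem normal_bound {K : ℝ} (hK : 10000 ≤ K) (v : Z 2) (hv : ‖v‖ = 1) (η c η₁ : E 2)
    (hη : ‖η‖ ≤ 3) (h1 : ‖η - c‖ ≤ 100 / K) (h2 : ‖c - η₁‖ ≤ 3 / K) (h3 : η₁ ∈ Cz v) :
    |qB v (ll η)| ≤ (K / 10000)⁻¹ := by
  have hK0 : 0 < K := by linarith
  have h4 : ‖η - η₁‖ ≤ 103 / K := by
    have e1 : η - η₁ = (η - c) + (c - η₁) := by abel
    rw [e1]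
    refine (norm_add_le _ _).trans ?_
    have e2 : (103 : ℝ) / K = 100 / K + 3 / K := by ring
    rw [e2]; linarith
  have h5 : (103 : ℝ) / K ≤ 1 := by
    rw [div_le_one hK0]; linarith
  have h6 : ‖η₁‖ ≤ 4 := by
    have e1 : η₁ = η - (η - η₁) := by abel
    rw [e1]
    refine (norm_sub_le _ _).trans ?_
    linarith
  have h7 : v.1 + ⟪v.2.1, η₁⟫ + v.2.2 * ‖η₁‖ ^ 2 = 0 := by
    have h8 : ph (nv η₁) v = 0 := h3
    simp only [ph, nv] at h8
    rw [real_inner_comm] at h8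
    linarith
  rw [qB_comm, qB_ll]
  have h9 : v.1 + ⟪v.2.1, η⟫ + v.2.2 * ‖η‖ ^ 2 =
      ⟪v.2.1, η - η₁⟫ + v.2.2 * ((‖η‖ - ‖η₁‖) * (‖η‖ + ‖η₁‖)) := by
    rw [inner_sub_right]
    linear_combination h7
  have n1 : ‖v.2.1‖ ≤ 1 := by
    rw [← hv, Prod.norm_def, Prod.norm_def]; exact (le_max_left _ _).trans (le_max_right _ _)
  have n2 : |v.2.2| ≤ 1 := by
    rw [← hv, Prod.norm_def, Prod.norm_def]; exact (le_max_right _ _).trans (le_max_right _ _)
  have n3 : |⟪v.2.1, η - η₁⟫| ≤ 103 / K := by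
    refine (abs_real_inner_le_norm _ _).trans ?_
    calc ‖v.2.1‖ * ‖η - η₁‖ ≤ 1 * (103 / K) := by gcongr
      _ = 103 / K := one_mul _
  have n4 : |‖η‖ - ‖η₁‖| ≤ 103 / K := (abs_norm_sub_norm_le _ _).trans h4
  have n5 : |v.2.2 * ((‖η‖ - ‖η₁‖) * (‖η‖ + ‖η₁‖))| ≤ 1 * (103 / K * 7) := by
    rw [abs_mul, abs_mul]
    have n6 : |‖η‖ + ‖η₁‖| ≤ 7 := by
      rw [abs_of_nonneg (by positivity)]; linarith
    gcongr
  have n7 : |⟪v.2.1, η - η₁⟫ + v.2.2 * ((‖η‖ - ‖η₁‖) * (‖η‖ + ‖η₁‖))| ≤ 103 / K + 1 * (103 / K * 7) :=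
    (abs_add_le _ _).trans (add_le_add n3 n5)
  rw [h9, abs_mul]
  have n8 : (K / 10000)⁻¹ = 10000 / K := by rw [inv_div]
  rw [n8]
  have n9 : |(2 : ℝ)| = 2 := by norm_num
  rw [n9]
  calc 2 * |⟪v.2.1, η - η₁⟫ + v.2.2 * ((‖η‖ - ‖η₁‖) * (‖η‖ + ‖η₁‖))| ≤
      2 * (103 / K + 1 * (103 / K * 7)) := by gcongr
    _ = 1648 / K := by ring
    _ ≤ 10000 / K := by gcongr; norm_num

/-- merging the tags -/
theorem merge {Cp D : ℝ} (hCp : 1 ≤ Cp) (hD : 1 ≤ D) {P Pb : Finset Pq}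
    (hPTS : ∀ (D : ℝ) (x : Z 2) (Y : Finset (Z 2)), 1 ≤ D → Sep Y → (∀ z ∈ Y, ‖z - x‖ ≤ D) →
      (Y.card : ℝ) ≤ Cp * D ^ 4)
    (hPTS3 : ∀ Y : Finset (Z 2), ∃ Y' ⊆ Y, Sep Y' ∧ ∀ z ∈ Y, ∃ z' ∈ Y', ‖z - z'‖ ≤ 1)
    (hsep : PSep P) (htg : PTag D P) (hPb : Pb ⊆ P) :
    ∃ Pm : Finset ((Fin 2 → ℤ) × Z 2), (∀ p ∈ Pm, ∃ t, (t, p.1, p.2) ∈ Pb) ∧
      (∀ p ∈ Pm, ∀ p' ∈ Pm, p ≠ p' → p.1 = p'.1 → 1 ≤ ‖p.2 - p'.2‖) ∧
      (Pb.card : ℝ) ≤ D * Cp * Pm.card := by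
  classical
  choose Y' hY'1 hY'2 hY'3 using fun κ : Fin 2 → ℤ =>
    hPTS3 ((Pb.filter fun p => p.2.1 = κ).image fun p => p.2.2)
  set Pm := (Pb.image fun p => (p.2.1, p.2.2)).filter fun e => e.2 ∈ Y' e.1 with hPm
  refine ⟨Pm, ?_, ?_, ?_⟩
  · intro p hp
    obtain ⟨h1, -⟩ := Finset.mem_filter.1 hp
    obtain ⟨p₀, hp₀, rfl⟩ := Finset.mem_image.1 h1
    exact ⟨p₀.1, hp₀⟩
  · intro p hp p' hp' hne h1
    have h2 := (Finset.mem_filter.1 hp).2
    have h3 := (Finset.mem_filter.1 hp').2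
    rw [← h1] at h3
    refine hY'2 p.1 _ h2 _ h3 ?_
    intro h4; exact hne (Prod.ext h1 h4)
  · have hcov : Pb ⊆ Pm.biUnion fun e => Pb.filter fun p => p.2.1 = e.1 ∧ ‖p.2.2 - e.2‖ ≤ 1 := by
      intro p hp
      obtain ⟨x, hx, hpx⟩ := hY'3 p.2.1 p.2.2 (Finset.mem_image.2 ⟨p, Finset.mem_filter.2 ⟨hp, rfl⟩, rfl⟩)
      have hx2 := hY'1 p.2.1 hx
      obtain ⟨p₁, hp₁, h5⟩ := Finset.mem_image.1 hx2
      obtain ⟨hp₁, h6⟩ := Finset.mem_filter.1 hp₁
      refine Finset.mem_biUnion.2 ⟨(p.2.1, x), ?_, Finset.mem_filter.2 ⟨hp, rfl, hpx⟩⟩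
      refine Finset.mem_filter.2 ⟨Finset.mem_image.2 ⟨p₁, hp₁, ?_⟩, hx⟩
      rw [h6, h5]
    have h1 : ∀ e ∈ Pm, ((Pb.filter fun p => p.2.1 = e.1 ∧ ‖p.2.2 - e.2‖ ≤ 1).card : ℝ) ≤
        1 * (D * (Cp * 1 ^ 4)) := by
      intro e _
      refine count3 _ 1 D (Cp * 1 ^ 4) (by linarith) (by linarith) ?_ ?_ ?_
      · have : ((Pb.filter fun p => p.2.1 = e.1 ∧ ‖p.2.2 - e.2‖ ≤ 1).image fun p => p.2.1) ⊆ {e.1} := by
          intro κ hκ
          obtain ⟨p, hp, rfl⟩ := Finset.mem_image.1 hκ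
          rw [Finset.mem_singleton]
          exact (Finset.mem_filter.1 hp).2.1
        have h3 := Finset.card_le_card this
        rw [Finset.card_singleton] at h3
        exact_mod_cast h3
      · intro κ
        refine le_trans ?_ (htg κ)
        have : (((Pb.filter fun p => p.2.1 = e.1 ∧ ‖p.2.2 - e.2‖ ≤ 1).filter fun p => p.2.1 = κ).image fun p => p.1) ⊆
            ((P.filter fun p => p.2.1 = κ).image fun p => p.1) := by
          refine Finset.image_subset_image ?_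
          intro p hp
          obtain ⟨hp1, hp2⟩ := Finset.mem_filter.1 hp
          exact Finset.mem_filter.2 ⟨hPb (Finset.mem_filter.1 hp1).1, hp2⟩
        exact_mod_cast Finset.card_le_card this
      · intro t κ
        refine count_pts (r := 1) (P := P) le_rfl hPTS hsep ?_ t κ e.2 ?_
        · intro p hp
          exact hPb (Finset.mem_filter.1 (Finset.mem_filter.1 hp).1).1
        · intro p hp
          obtain ⟨hp1, hp2⟩ := Finset.mem_filter.1 hp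
          exact ⟨hp2.1, hp2.2, (Finset.mem_filter.1 hp1).2.2⟩
    calc (Pb.card : ℝ) ≤ (Pm.biUnion fun e => Pb.filter fun p => p.2.1 = e.1 ∧ ‖p.2.2 - e.2‖ ≤ 1).card := by
          exact_mod_cast Finset.card_le_card hcov
      _ ≤ ∑ e ∈ Pm, ((Pb.filter fun p => p.2.1 = e.1 ∧ ‖p.2.2 - e.2‖ ≤ 1).card : ℝ) := by
          exact_mod_cast Finset.card_biUnion_le
      _ ≤ ∑ _e ∈ Pm, 1 * (D * (Cp * 1 ^ 4)) := Finset.sum_le_sum h1
      _ = D * Cp * Pm.card := by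
          rw [Finset.sum_const, nsmul_eq_mul]; ring

/-- the numbers -/
theorem bll_num {P m D D₂ H w W A R C₆ Cp c₆ : ℝ} (hP : P ≤ D * Cp * m)
    (hH : 0 < H) (hD : 1 ≤ D) (hDD : D ≤ D₂) (hCp : 1 ≤ Cp)
    (hC : Cp * C₆ ≤ D) (hc₆ : 1 ≤ c₆) (hAR : 0 < A * R)
    (hW : W ≤ D) (hW0 : 0 ≤ W) (h1 : m * H ^ 2 ≤ C₆ * D ^ c₆ * W * (A * R) ^ 2)
    (h2 : A * R ≤ D₂ * (w ^ 2 * H)) : P ≤ D₂ ^ (c₆ + 5) * w ^ 4 := by
  have hD₂ : 1 ≤ D₂ := hD.trans hDD
  have h3 : P * H ^ 2 ≤ D₂ ^ (c₆ + 5) * w ^ 4 * H ^ 2 := by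
    calc P * H ^ 2 ≤ D * Cp * m * H ^ 2 := by gcongr
      _ = D * Cp * (m * H ^ 2) := by ring
      _ ≤ D * Cp * (C₆ * D ^ c₆ * W * (A * R) ^ 2) := by gcongr
      _ = (Cp * C₆) * D * D ^ c₆ * W * (A * R) ^ 2 := by ring
      _ ≤ D₂ * D₂ * D₂ ^ c₆ * D₂ * (D₂ * (w ^ 2 * H)) ^ 2 := by
          have a1 : Cp * C₆ ≤ D₂ := hC.trans hDD
          have a2 : D ^ c₆ ≤ D₂ ^ c₆ := Real.rpow_le_rpow (by linarith) hDD (by linarith)
          have a3 : W ≤ D₂ := hW.trans hDD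
          gcongr
      _ = D₂ ^ c₆ * D₂ ^ 5 * w ^ 4 * H ^ 2 := by ring
      _ = D₂ ^ (c₆ + 5) * w ^ 4 * H ^ 2 := by
          rw [Real.rpow_add (by linarith)]
          have : D₂ ^ (5 : ℝ) = D₂ ^ 5 := by rw [← Real.rpow_natCast D₂ 5]; norm_num
          rw [this]
  exact le_of_mul_le_mul_right h3 (by positivity)

theorem card_filter_inst {α : Type} (p : α → Prop) (i j : DecidablePred p) (s : Finset α) :
    (@Finset.filter α p i s).card = (@Finset.filter α p j s).card := by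
  have : i = j := Subsingleton.elim _ _
  subst this; rfl

/-- pruning, with any instances -/
theorem prn_inst (hPRN : T_PRN) {α β : Type} [i : DecidableEq α] [j : DecidableEq β]
    (F : Finset (α × β)) (s t : ℝ) (hs : 0 ≤ s) (ht : 0 ≤ t)
    (h : s * (F.image fun e => e.1).card + t * (F.image fun e => e.2).card < F.card) :
    ∃ F' ⊆ F, F'.Nonempty ∧ (∀ e ∈ F', s ≤ ((F'.filter fun e' => e'.1 = e.1).card : ℝ) ∧
      t ≤ ((F'.filter fun e' => e'.2 = e.2).card : ℝ)) := by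
  obtain ⟨F', h1, h2, h3⟩ := hPRN α β F s t hs ht (by
    rw [card_image_inst _ i (fun e : α × β => e.1) F, card_image_inst _ j (fun e : α × β => e.2) F]
    exact h)
  refine ⟨F', h1, h2, fun e he => ⟨?_, ?_⟩⟩
  · exact (h3 e he).1.trans (le_of_eq (congrArg Nat.cast (card_filter_inst _ _ _ _)))
  · exact (h3 e he).2.trans (le_of_eq (congrArg Nat.cast (card_filter_inst _ _ _ _)))

open scoped Classical in
theorem mem_PC {ι : Type} (P : Finset ι) (I : Z 2 → ι → Prop) (η : ι → E 2) (z : Z 2) (η₀ : E 2)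
    (s : ℝ) (p : ι) : p ∈ PC P I η z η₀ s ↔ p ∈ P ∧ I z p ∧ ‖η p - η₀‖ ≤ s := by
  unfold PC; rw [Finset.mem_filter]

open scoped Classical in
theorem mem_PZ {ι : Type} (P : Finset ι) (I : Z 2 → ι → Prop) (z : Z 2) (p : ι) :
    p ∈ PZ P I z ↔ p ∈ P ∧ I z p := by
  unfold PZ; rw [Finset.mem_filter]

open scoped Classical in
theorem mem_XP {ι : Type} (X : Finset (Z 2)) (I : Z 2 → ι → Prop) (z : Z 2) (p : ι) :
    z ∈ XP X I p ↔ z ∈ X ∧ I z p := by
  unfold XP; rw [Finset.mem_filter]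

open scoped Classical in
theorem pf_BLL (hBLA : T_BLA) (hPRN : T_PRN) (hCIR : T_CIR) (hH6 : T_H6) (hCMP : T_CMP)
    (hPTS : T_PTS) (hPUS : T_PUS) : T_BLL := by
  obtain ⟨Ca0, hCa0, hBLA⟩ := hBLA
  obtain ⟨C60, hC60, hH6⟩ := hH6
  obtain ⟨Cc, hCc, hCIR⟩ := hCIR
  obtain ⟨Cm, hCm, -, hcoord, hsupp, -⟩ := hCMP
  obtain ⟨Cp, hCp, -, hPTS2, hPTS3⟩ := hPTS
  refine ⟨Ca0 + C60 + 10, by linarith, ?_⟩
  intro L β ε hL hβ hε
  obtain ⟨Ca, hCa, hBLA⟩ := hBLA L β hL hβ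
  obtain ⟨C6, hC6, hH6⟩ := hH6 L β ε hL hβ hε
  have hCpC6 : 1 ≤ Cp * C6 := one_le_mul_of_one_le_of_one_le hCp hC6
  refine ⟨Ca + 49 * Cp + 2 * Cc + Cp * C6 + 2, by linarith, ?_⟩
  intro Cb R A H₀ D D₂ H G X K₁ n w P Q hR hA hH₀ hCb hE43 hG hX hXH hE hSt hwR hCD hn hnD hDD hAR hK
  have hst : St β G (En43 A R G) H₀ D X w H P Q := hSt.toSt
  have hD1 := hst.D1
  have hD0 : 0 < D := by linarith
  have hD₂1 : 1 ≤ D₂ := hD1.trans hDD
  have hH := hst.H0
  have hw1 := hst.w1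
  have hw : (1 : ℝ) ≤ w := by exact_mod_cast hw1
  have hw0 : (0 : ℝ) < w := by linarith
  have hRe : 1 ≤ R ^ ε := Real.one_le_rpow hR hε.le
  have hCR : 1 ≤ Cb * R ^ ε := one_le_mul_of_one_le_of_one_le hCb hRe
  have hCD' : Ca + 49 * Cp + 2 * Cc + Cp * C6 + 2 ≤ D := by
    refine le_trans ?_ hCD
    rw [mul_assoc]
    exact le_mul_of_one_le_right (by linarith) hCR
  have hReD : R ^ ε ≤ D := by
    refine le_trans ?_ hCD
    have h1 : R ^ ε ≤ Cb * R ^ ε := le_mul_of_one_le_left (by linarith) hCb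
    refine h1.trans ?_
    rw [mul_assoc]
    exact le_mul_of_one_le_left (by linarith) (by linarith)
  have hCaD : Ca * Cb * R ^ ε ≤ D := by
    refine le_trans ?_ hCD
    rw [mul_assoc, mul_assoc]
    exact mul_le_mul_of_nonneg_right (by linarith) (by linarith)
  obtain ⟨D', hD'⟩ : ∃ D' : ℝ, D' = D₂ ^ (Ca0 + C60 + 10) := ⟨_, rfl⟩
  have hD'1 : 1 ≤ D' := by rw [hD']; exact Real.one_le_rpow hD₂1 (by linarith)
  have hDpow : ∀ x : ℝ, 0 ≤ x → x ≤ Ca0 + C60 + 10 → D ^ x ≤ D' := by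
    intro x hx hx'
    rw [hD']
    exact (Real.rpow_le_rpow hD0.le hDD hx).trans (Real.rpow_le_rpow_of_exponent_le hD₂1 hx')
  have hDnat : ∀ k : ℕ, k ≤ 10 → D ^ k ≤ D' := by
    intro k hk
    rw [← Real.rpow_natCast]
    have hk' : (k : ℝ) ≤ 10 := by exact_mod_cast hk
    exact hDpow k (by positivity) (by linarith)
  rw [← hD'] at hK ⊢
  have hK4 : (10000 : ℝ) ≤ K₁ := by linarith
  have hK0 : (0 : ℝ) < K₁ := by linarith
  obtain ⟨q, F, V, hFQ, hFne, hFq, hV, hFV, hFc⟩ := hBLA ε Cb R A H₀ D H G X K₁ n w P Q hR hA hH₀ hε hCb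
    hE43 hG hX hXH hE hSt hwR hCaD hn hnD
  have hDa : 0 < D ^ Ca0 := Real.rpow_pos_of_pos hD0 _
  obtain ⟨F', hF'F, hF'ne, hF'⟩ := prn_inst hPRN F ((w : ℝ) / D ^ Ca0) ((w : ℝ) ^ 4 / D ^ Ca0)
    (by positivity) (by positivity) (by
      have h1 : (w : ℝ) / D ^ Ca0 * (F.image fun e => e.1).card +
          (w : ℝ) ^ 4 / D ^ Ca0 * (F.image fun e => e.2).card =
          ((w : ℝ) * (F.image fun e => e.1).card + (w : ℝ) ^ 4 * (F.image fun e => e.2).card) /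
            D ^ Ca0 := by ring
      rw [h1, div_lt_iff₀ hDa, mul_comm (F.card : ℝ)]
      exact hFc)
  have hF'Q : ∀ e ∈ F', e ∈ Q := fun e he => hFQ (hF'F he)
  have hr : (0 : ℝ) < (w : ℝ) ^ 2 / 2 := by positivity
  set z₀ : Z 2 := ((w : ℝ) ^ 2 / 2) • zc q with hz₀
  set Xb : Finset (Z 2) := F'.image fun e => e.1 - z₀ with hXb
  set Pb : Finset Pq := F'.image fun e => e.2 with hPb
  have hPbP : Pb ⊆ P := by
    intro p hp
    obtain ⟨e, he, rfl⟩ := Finset.mem_image.1 hp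
    exact (hst.rel e (hF'Q e he)).2.1
  have hballF : ∀ e ∈ F', ‖e.1 - z₀‖ ≤ (w : ℝ) ^ 2 := by
    intro e he
    have h1 := cell_ball hr e.1 q (hFq e (hF'F he))
    rw [← hz₀] at h1
    linarith
  have heta : ∀ p ∈ P, ‖ctr (w : ℝ)⁻¹ p.2.1‖ ≤ 3 := by
    intro p hp
    obtain ⟨-, h1⟩ := hst.pk p hp
    have h2 : TF (Gc β w G p.2.1) p.2.2 ≠ 0 := by
      intro h3
      rw [h3, norm_zero] at h1
      linarith
    have h3 := (hsupp L β R A G w p.2.1 p.2.2 hβ hR hA hw1 hG h2).2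
    have h4 : (1 : ℝ) / w ≤ 1 := by rw [div_le_one hw0]; exact hw
    linarith
  refine ⟨z₀, Xb, Pb, fun z p => (z + z₀, p) ∈ F', ?_, ?_, hPbP, ?_, ?_⟩
  · refine { one_le_D := hD'1, D_le_K := by rw [le_div_iff₀ (by norm_num)]; linarith, K_le := ?_, sep := ?_, ball := ?_, eta := fun p hp => heta p (hPbP hp), h0 := ?_, h1 := ?_, h2 := ?_, h3 := ?_, h4 := ?_, h5 := ?_, h6 := ?_ }
    · have h1 : (K₁ : ℝ) ≤ w := by exact_mod_cast hSt.Kw
      linarith
    · intro z hz z' hz' hne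
      obtain ⟨e, he, rfl⟩ := Finset.mem_image.1 hz
      obtain ⟨e', he', rfl⟩ := Finset.mem_image.1 hz'
      have h1 := hX e.1 (hst.rel e (hF'Q e he)).1 e'.1 (hst.rel e' (hF'Q e' he')).1 (by
        intro h; exact hne (by rw [h]))
      rw [sub_sub_sub_cancel_right]; exact h1
    · intro z hz
      obtain ⟨e, he, rfl⟩ := Finset.mem_image.1 hz
      exact hballF e he
    · intro p hp z _ z' _ h1 h2
      have a1 := (hst.rel _ (hF'Q _ h1)).2.2
      have a2 := (hst.rel _ (hF'Q _ h2)).2.2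
      simp only at a1 a2
      obtain ⟨b1, -⟩ := hcoord w p.2.1 (z + z₀) (z' + z₀) hw1 (hst.pk p (hPbP hp)).1
      have b2 : Lo (ctr (w : ℝ)⁻¹ p.2.1) (w : ℝ)⁻¹ (z - z') = Lc w p.2.1 ((z + z₀) - (z' + z₀)) := by
        rw [add_sub_add_right_eq_sub]; rfl
      rw [b2, b1]
      have b3 : Lc w p.2.1 (z + z₀) - Lc w p.2.1 (z' + z₀) =
          (Lc w p.2.1 (z + z₀) - p.2.2) - (Lc w p.2.1 (z' + z₀) - p.2.2) := by abel
      rw [b3]
      refine (norm_sub_le _ _).trans ?_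
      have b4 : D ^ 2 ≤ D' := hDnat 2 (by norm_num)
      nlinarith
    · intro z hz η₀
      have hS : ∀ p ∈ PC Pb (fun z p => (z + z₀, p) ∈ F') (fun p : Pq => ctr (w : ℝ)⁻¹ p.2.1) z η₀
          (w : ℝ)⁻¹, p ∈ P ∧ (z + z₀, p) ∈ F' ∧ ‖ctr (w : ℝ)⁻¹ p.2.1 - η₀‖ ≤ (w : ℝ)⁻¹ := by
        intro p hp
        obtain ⟨h1, h2, h3⟩ := (mem_PC _ _ _ _ _ _ _).1 hp
        exact ⟨hPbP h1, h2, h3⟩
      refine (count3 _ 49 D (Cp * D ^ 4) hD0.le (by positivity) ?_ ?_ ?_).trans ?_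
      · refine caps_near w hw0 η₀ _ ?_
        intro κ hκ
        obtain ⟨p, hp, rfl⟩ := Finset.mem_image.1 hκ
        exact (hS p hp).2.2
      · intro κ
        refine le_trans ?_ (hst.tg κ)
        have h1 : (((PC Pb (fun z p => (z + z₀, p) ∈ F') (fun p : Pq => ctr (w : ℝ)⁻¹ p.2.1) z η₀
          (w : ℝ)⁻¹).filter fun p => p.2.1 = κ).image fun p => p.1) ⊆
            ((P.filter fun p => p.2.1 = κ).image fun p => p.1) := by
          refine Finset.image_subset_image ?_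
          intro p hp
          obtain ⟨hp1, hp2⟩ := Finset.mem_filter.1 hp
          exact Finset.mem_filter.2 ⟨(hS p hp1).1, hp2⟩
        exact_mod_cast Finset.card_le_card h1
      · intro t κ
        refine count_pts (r := D) (P := P) hD1 hPTS2 hst.sep ?_ t κ (Lc w κ (z + z₀)) ?_
        · intro p hp
          exact (hS p (Finset.mem_filter.1 hp).1).1
        · intro p hp
          obtain ⟨hp1, hp2, hp3⟩ := Finset.mem_filter.1 hp
          refine ⟨hp2, hp3, ?_⟩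
          have h1 := (hst.rel _ (hF'Q _ (hS p hp1).2.1)).2.2
          simp only at h1
          rw [hp3] at h1
          rw [norm_sub_rev]; exact h1
      · have b4 : D ^ 6 ≤ D' := hDnat 6 (by norm_num)
        have b5 : 49 * Cp ≤ D := by linarith
        calc 49 * (D * (Cp * D ^ 4)) = 49 * Cp * D ^ 5 := by ring
          _ ≤ D * D ^ 5 := by gcongr
          _ = D ^ 6 := by ring
          _ ≤ D' := b4
    · intro z hz
      obtain ⟨e, he, rfl⟩ := Finset.mem_image.1 hz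
      have h1 := (hF' e he).1
      rw [div_le_iff₀ hDa] at h1
      have h2 : (F'.filter fun e' => e'.1 = e.1).card ≤
          (PZ Pb (fun z p => (z + z₀, p) ∈ F') (e.1 - z₀)).card := by
        refine Finset.card_le_card_of_injOn (fun e' => e'.2) ?_ ?_
        · intro e' he'
          obtain ⟨a1, a2⟩ := Finset.mem_filter.1 (Finset.mem_coe.1 he')
          refine Finset.mem_coe.2 ((mem_PZ _ _ _ _).2 ⟨Finset.mem_image_of_mem _ a1, ?_⟩)
          change (e.1 - z₀ + z₀, e'.2) ∈ F'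
          rw [sub_add_cancel, ← a2]; exact a1
        · intro e' he' e'' he'' h
          obtain ⟨a1, a2⟩ := Finset.mem_filter.1 (Finset.mem_coe.1 he')
          obtain ⟨b1, b2⟩ := Finset.mem_filter.1 (Finset.mem_coe.1 he'')
          exact Prod.ext (by rw [a2, b2]) h
      have h3 : ((F'.filter fun e' => e'.1 = e.1).card : ℝ) ≤
          (PZ Pb (fun z p => (z + z₀, p) ∈ F') (e.1 - z₀)).card := by exact_mod_cast h2
      have h4 := hDpow Ca0 (by linarith) (by linarith)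
      calc (w : ℝ) ≤ ((F'.filter fun e' => e'.1 = e.1).card : ℝ) * D ^ Ca0 := h1
        _ ≤ (PZ Pb (fun z p => (z + z₀, p) ∈ F') (e.1 - z₀)).card * D' := by gcongr
        _ = D' * (PZ Pb (fun z p => (z + z₀, p) ∈ F') (e.1 - z₀)).card := mul_comm _ _
    · intro p hp
      obtain ⟨e, he, rfl⟩ := Finset.mem_image.1 hp
      have h1 := (hF' e he).2
      rw [div_le_iff₀ hDa] at h1
      have h2 : (F'.filter fun e' => e'.2 = e.2).card ≤
          (XP Xb (fun z p => (z + z₀, p) ∈ F') e.2).card := by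
        refine Finset.card_le_card_of_injOn (fun e' => e'.1 - z₀) ?_ ?_
        · intro e' he'
          obtain ⟨a1, a2⟩ := Finset.mem_filter.1 (Finset.mem_coe.1 he')
          refine Finset.mem_coe.2 ((mem_XP _ _ _ _).2
            ⟨Finset.mem_image_of_mem (fun e : Z 2 × Pq => e.1 - z₀) a1, ?_⟩)
          change (e'.1 - z₀ + z₀, e.2) ∈ F'
          rw [sub_add_cancel, ← a2]; exact a1
        · intro e' he' e'' he'' h
          obtain ⟨a1, a2⟩ := Finset.mem_filter.1 (Finset.mem_coe.1 he')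
          obtain ⟨b1, b2⟩ := Finset.mem_filter.1 (Finset.mem_coe.1 he'')
          exact Prod.ext (sub_left_injective h) (by rw [a2, b2])
      have h3 : ((F'.filter fun e' => e'.2 = e.2).card : ℝ) ≤
          (XP Xb (fun z p => (z + z₀, p) ∈ F') e.2).card := by exact_mod_cast h2
      have h4 := hDpow Ca0 (by linarith) (by linarith)
      calc (w : ℝ) ^ 4 ≤ ((F'.filter fun e' => e'.2 = e.2).card : ℝ) * D ^ Ca0 := h1
        _ ≤ (XP Xb (fun z p => (z + z₀, p) ∈ F') e.2).card * D' := by gcongr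
        _ = D' * (XP Xb (fun z p => (z + z₀, p) ∈ F') e.2).card := mul_comm _ _
    · intro z hz η₀ s hs
      have hs' : 10000 ≤ s * K₁ := by
        rw [inv_div, div_le_iff₀ hK0] at hs; exact hs
      have hs0 : 0 < s := lt_of_lt_of_le (by positivity) hs
      obtain ⟨S, hSdef⟩ : ∃ S, S = PC Pb (fun z p => (z + z₀, p) ∈ F')
        (fun p : Pq => ctr (w : ℝ)⁻¹ p.2.1) z η₀ s := ⟨_, rfl⟩
      have hS : ∀ p ∈ S, p ∈ P ∧ (z + z₀, p) ∈ F' ∧ ‖ctr (w : ℝ)⁻¹ p.2.1 - η₀‖ ≤ s := by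
        intro p hp
        rw [hSdef] at hp
        obtain ⟨h1, h2, h3⟩ := (mem_PC _ _ _ _ _ _ _).1 hp
        exact ⟨hPbP h1, h2, h3⟩
      rw [← hSdef]
      have hJ : ((S.image fun p => p.1).card : ℝ) ≤ Cc * ((s + 100 / K₁) * K₁ + 1) := by
        refine hCIR K₁ (s + 100 / K₁) (V (z + z₀)) η₀ _ (by linarith) (by positivity) (hV _) ?_
        intro t ht
        obtain ⟨p, hp, rfl⟩ := Finset.mem_image.1 ht
        obtain ⟨h1, h2, h3⟩ := hS p hp
        obtain ⟨η, hη, h4⟩ := hFV _ (hF'F h2)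
        refine ⟨?_, η, hη, h4⟩
        have h5 := hSt.tgd p h1
        have h6 : ctr (K₁ : ℝ)⁻¹ p.1 - η₀ = (ctr (w : ℝ)⁻¹ p.2.1 - η₀) -
            (ctr (w : ℝ)⁻¹ p.2.1 - ctr (K₁ : ℝ)⁻¹ p.1) := by abel
        rw [h6]
        refine (norm_sub_le _ _).trans ?_
        have h7 : (0 : ℝ) ≤ 100 / w := by positivity
        linarith
      have hfib : ∀ t, ((S.filter fun p => p.1 = t).card : ℝ) ≤ D * w / K₁ := by
        intro t
        refine le_trans ?_ (hSt.tdeg (z + z₀) t)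
        have h1 : (S.filter fun p => p.1 = t).card ≤ (Qzt Q (z + z₀) t).card := by
          refine Finset.card_le_card_of_injOn (fun p => (z + z₀, p)) ?_ ?_
          · intro p hp
            obtain ⟨a1, a2⟩ := Finset.mem_filter.1 (Finset.mem_coe.1 hp)
            exact Finset.mem_coe.2 (Finset.mem_filter.2 ⟨hF'Q _ (hS p a1).2.1, rfl, a2⟩)
          · intro p _ p' _ h
            exact congrArg (fun e : Z 2 × Pq => e.2) h
        exact_mod_cast h1
      have e1 : (S.card : ℝ) = ∑ t ∈ S.image (fun p => p.1), ((S.filter fun p => p.1 = t).card : ℝ) := by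
        exact_mod_cast Finset.card_eq_sum_card_image (fun p : Pq => p.1) S
      rw [e1]
      calc ∑ t ∈ S.image (fun p => p.1), ((S.filter fun p => p.1 = t).card : ℝ) ≤
          ∑ _t ∈ S.image (fun p => p.1), D * w / K₁ := Finset.sum_le_sum fun t _ => hfib t
        _ = (S.image fun p => p.1).card * (D * w / K₁) := by rw [Finset.sum_const, nsmul_eq_mul]
        _ ≤ (Cc * ((s + 100 / K₁) * K₁ + 1)) * (D * w / K₁) := by gcongr
        _ ≤ (Cc * (2 * (s * K₁))) * (D * w / K₁) := by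
            have h8 : (s + 100 / K₁) * K₁ + 1 ≤ 2 * (s * K₁) := by
              have h9 : (s + 100 / K₁) * K₁ = s * K₁ + 100 := by field_simp
              rw [h9]; linarith
            gcongr
        _ = 2 * Cc * D * s * w := by field_simp
        _ ≤ D * D * s * w := by
            have h9 : 2 * Cc ≤ D := by linarith
            gcongr
        _ ≤ D' * s * w := by
            have b4 : D ^ 2 ≤ D' := hDnat 2 (by norm_num)
            have b5 : D * D ≤ D' := by rw [← sq]; exact b4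
            gcongr
    · intro z hz
      refine ⟨V (z + z₀), hV _, ?_⟩
      intro p hp hI
      obtain ⟨η, hη, h4⟩ := hFV _ (hF'F hI)
      have h5 := hSt.tgd p (hPbP hp)
      have h7 : (0 : ℝ) ≤ 100 / w := by positivity
      exact normal_bound hK4 _ (hV _) _ (ctr (K₁ : ℝ)⁻¹ p.1) η (heta p (hPbP hp)) (by linarith) h4 hη
    · obtain ⟨Pm, hPm1, hPm2, hPm3⟩ := merge hCp hD1 hPTS2 hPTS3 hst.sep hst.tg hPbP
      have h6 := hH6 R A D H w G z₀ Pm hw1 hwR hA hH hD1 hG ?_ hPm2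
      · have hwe : (w : ℝ) ^ ε ≤ D := by
          have h1 : (w : ℝ) ≤ R := by nlinarith
          exact (Real.rpow_le_rpow hw0.le h1 hε.le).trans hReD
        have h7 := bll_num (c₆ := C60) hPm3 hH hD1 hDD hCp (by linarith) hC60 (by positivity) hwe
          (by positivity) h6 hAR
        refine h7.trans ?_
        have h8 : D₂ ^ (C60 + 5) ≤ D' := by
          rw [hD']; exact Real.rpow_le_rpow_of_exponent_le hD₂1 (by linarith)
        gcongr
      · intro p hp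
        obtain ⟨t, ht⟩ := hPm1 p hp
        obtain ⟨e, he, h1⟩ := Finset.mem_image.1 ht
        have h2 := hst.pk _ (hPbP ht)
        refine ⟨h2.1, h2.2, e.1, hballF e he, ?_⟩
        have h3 := (hst.rel e (hF'Q e he)).2.2
        rw [h1] at h3
        exact h3
  · obtain ⟨e, he⟩ := hF'ne
    exact ⟨_, Finset.mem_image_of_mem _ he⟩
  · intro z hz
    obtain ⟨e, he, rfl⟩ := Finset.mem_image.1 hz
    rw [sub_add_cancel]
    exact (hst.rel e (hF'Q e he)).1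
  · intro z _ p _ hI
    exact (hst.rel _ (hF'Q _ hI)).2.2

end Pool.Agent.H23.D3
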