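import Pool.Agent.H81.D3.Targets

/-!
MP_ee74d2_an, dimension 3, below 10/3: row TOP (the first state with tags) of the board of helper81.
-/

set_option autoImplicit false

namespace Pool.Agent.H23.D3

open MeasureTheory Set Pool.Agent.H83.G Pool.Agent.H81.D3

theorem top_Par {L N₁ : ℕ} {β : E 2 → ℂ} {C₀ C δ M cb₀ C₁ ε δ₁ Cb R A D H Cg Cg0 Cs : ℝ} {K n : ℕ}
    (hP : Par L N₁ β C₀ C δ M cb₀ C₁ ε δ₁ Cb R A D H 1 K n) (hδ : 0 < δ) (hδ1 : δ ≤ 1 / 100)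
    (hM : 1 ≤ M) (hH : 0 < H)
    (hCg : 1 ≤ Cg) (hCg0 : 1 ≤ Cg0) (hCs : 1 ≤ Cs) (h1 : Cg ≤ C) (h2 : Cs ^ 4 ≤ C)
    (h3 : 2 * Cg0 ≤ C₀) :
    Par L N₁ β Cg0 Cg δ (M + 1) cb₀ C₁ ε δ₁ Cb R A (Cs ^ 4 * D) (H / Cs) 1 K n ∧ C ≤ D ∧
      Cs ^ 4 * D ≤ D ^ (2 : ℝ) ∧ 1 ≤ D := by
  have hC1 : 1 ≤ C := hCg.trans h1
  have hK1 : (1 : ℝ) ≤ K := hP.Cb1.trans hP.KCb
  have hRe : 1 ≤ R ^ ε := Real.one_le_rpow hP.R1 hP.e0.le
  have hC₀ : 1 ≤ C₀ := by linarith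
  have hKC0 : 1 ≤ (K : ℝ) ^ (C₀ * δ) := Real.one_le_rpow hK1 (by positivity)
  have hn1 : (1 : ℝ) ≤ n := by exact_mod_cast hP.n1
  have hCD : C ≤ D := by
    refine le_trans ?_ hP.Dl
    have a1 : C ≤ C * Cb := le_mul_of_one_le_right (by linarith) hP.Cb1
    have a2 : C * Cb ≤ C * Cb * R ^ ε := le_mul_of_one_le_right (by have := hP.Cb1; positivity) hRe
    have a3 : C * Cb * R ^ ε ≤ C * Cb * R ^ ε * (K : ℝ) ^ (C₀ * δ) :=
      le_mul_of_one_le_right (by have := hP.Cb1; positivity) hKC0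
    have a4 : C * Cb * R ^ ε * (K : ℝ) ^ (C₀ * δ) ≤ C * Cb * R ^ ε * (K : ℝ) ^ (C₀ * δ) * n :=
      le_mul_of_one_le_right (by have := hP.Cb1; positivity) hn1
    linarith
  have hD1 : 1 ≤ D := hC1.trans hCD
  have hCs4 : 1 ≤ Cs ^ 4 := one_le_pow₀ hCs
  have hD2 : Cs ^ 4 * D ≤ D ^ (2 : ℝ) := by
    rw [Real.rpow_two, sq]
    exact mul_le_mul_of_nonneg_right (h2.trans hCD) (by linarith)
  have hDD : D ≤ Cs ^ 4 * D := le_mul_of_one_le_left (by linarith) hCs4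
  have hCsK : Cs ≤ K := by
    have b1 : Cs ≤ Cs ^ 4 := le_self_pow₀ hCs (by norm_num)
    have b2 : (K : ℝ) ^ δ ≤ (K : ℝ) ^ (1 : ℝ) := Real.rpow_le_rpow_of_exponent_le hK1 (by linarith)
    rw [Real.rpow_one] at b2
    exact b1.trans (h2.trans (hP.KC.trans b2))
  have hCs0 : 0 < Cs := by linarith
  have hup := hP.up
  have hlo := hP.lo
  have hbr := hP.br
  simp only [Nat.cast_one, one_pow, one_mul] at hup hlo hbr
  refine ⟨{ hL := hP.hL, hE := hP.hE, cb := hP.cb, C1 := hP.C1, e0 := hP.e0, d1 := hP.d1, Cb1 := hP.Cb1, R1 := hP.R1, A0 := hP.A0, n1 := hP.n1, KC := h1.trans hP.KC, KCb := hP.KCb, wK := hP.wK, up := ?_, lo := ?_, br := ?_, Dl := ?_, nd := hP.nd }, hCD, hD2, hD1⟩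
  · simp only [Nat.cast_one, one_pow, one_mul]
    refine hup.trans ?_
    rw [Real.rpow_add (by linarith), Real.rpow_one, mul_assoc]
    refine mul_le_mul_of_nonneg_left ?_ (by positivity)
    rw [mul_div_assoc', le_div_iff₀ hCs0, mul_comm]
    exact mul_le_mul_of_nonneg_right hCsK hH.le
  · simp only [Nat.cast_one, one_pow, one_mul]
    refine le_trans ?_ hlo
    refine mul_le_mul_of_nonneg_left ?_ (by positivity)
    exact mul_le_mul h1 (div_le_self hH.le hCs) (by positivity) (by linarith)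
  · simp only [Nat.cast_one, one_pow, one_mul]
    refine le_trans ?_ hbr
    have hAR : 0 < A * R := mul_pos hP.A0 (by linarith [hP.R1])
    have c1 : (A * R / (H / Cs)) ^ (-cb₀) ≤ (A * R / H) ^ (-cb₀) := by
      refine Real.rpow_le_rpow_of_nonpos (by positivity) ?_ (by linarith [hP.cb])
      exact div_le_div_of_nonneg_left hAR.le (by positivity) (div_le_self hH.le hCs)
    have c2 : (Cs ^ 4 * D) ^ Cg0 ≤ D ^ C₀ := by
      calc (Cs ^ 4 * D) ^ Cg0 ≤ (D ^ (2 : ℝ)) ^ Cg0 := Real.rpow_le_rpow (by positivity) hD2 (by linarith)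
        _ = D ^ (2 * Cg0) := by rw [← Real.rpow_mul (by linarith)]
        _ ≤ D ^ C₀ := Real.rpow_le_rpow_of_exponent_le hD1 h3
    have hCb := hP.Cb1
    have hR := hP.R1
    gcongr
  · refine le_trans ?_ hDD
    refine le_trans ?_ hP.Dl
    have d1 : (K : ℝ) ^ (Cg0 * δ) ≤ (K : ℝ) ^ (C₀ * δ) :=
      Real.rpow_le_rpow_of_exponent_le hK1 (by nlinarith)
    have hCb := hP.Cb1
    have hR := hP.R1
    gcongr

theorem exists_unit : ∃ v : Z 2, ‖v‖ = 1 := ⟨(1, 0, 0), by simp [Prod.norm_def]⟩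

theorem pf_TOP (hST0 : T_ST0) (hGST : T_GST) (hTRC : T_TRC) (hCMP : T_CMP) (hPTS : T_PTS) (hMON : T_MON) : T_TOP := by
  classical
  obtain ⟨Cg0, hCg0, hGST⟩ := hGST
  obtain ⟨Cp, hCp, -, hPTS, -⟩ := hPTS
  obtain ⟨Cm, -, hcomp, -⟩ := hCMP
  refine ⟨8 * Cg0 + 1, by linarith, ?_⟩
  intro L N₁ β δ M hL hβ hδ hδ1 hM
  obtain ⟨Cs, hCs, hST0⟩ := hST0 L β hL hβ
  obtain ⟨Cg, hCg, hGST⟩ := hGST L N₁ β δ (M + 1) hL hβ hδ hδ1 (by linarith)
  refine ⟨Cg + Cs ^ 4 + Cp, by have : 1 ≤ Cs ^ 4 := one_le_pow₀ hCs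
                               linarith, ?_⟩
  intro cb₀ C₁ ε δ₁ Cb R A H D G X K n hP hH hG hX hE hXH hlow
  have hCs4 : 1 ≤ Cs ^ 4 := one_le_pow₀ hCs
  obtain ⟨hP', hCD, hD2, hD1⟩ := top_Par (Cg := Cg) (Cg0 := Cg0) (Cs := Cs) hP hδ hδ1 hM hH hCg hCg0 hCs
    (by linarith) (by linarith) (by linarith)
  obtain ⟨P, Q, hSt, hQ1, hP0⟩ := hST0 R A H D G X hP.R1 hP.A0 hH hD1 hG hX hXH hlow
  obtain ⟨H', P', Q', V, hSt', hV, hQ', hPp, -⟩ := hGST cb₀ C₁ ε δ₁ Cb R A H (Cs ^ 4 * D) (H / Cs) G X 1 K n P Q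
    hP' hH hG hX hE hSt
  rw [one_mul] at hSt'
  have hK1 : 1 ≤ K := hSt'.w1
  have hKr : (1 : ℝ) ≤ K := by exact_mod_cast hK1
  have hD₁ : 1 ≤ (Cs ^ 4 * D) ^ Cg0 := hSt'.D1
  have hDD : (Cs ^ 4 * D) ^ Cg0 ≤ D ^ (2 * Cg0) := by
    calc (Cs ^ 4 * D) ^ Cg0 ≤ (D ^ (2 : ℝ)) ^ Cg0 := Real.rpow_le_rpow (by positivity) hD2 (by linarith)
      _ = D ^ (2 * Cg0) := by rw [← Real.rpow_mul (by linarith)]
  have hDf : (Cs ^ 4 * D) ^ Cg0 ≤ D ^ (8 * Cg0 + 1) :=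
    hDD.trans (Real.rpow_le_rpow_of_exponent_le hD1 (by linarith))
  have hDf1 : 1 ≤ D ^ (8 * Cg0 + 1) := hD₁.trans hDf
  have hz : ∀ p ∈ P', p.1 = 0 := by
    intro p' hp'
    obtain ⟨p, hp, h1, -⟩ := hPp p' hp'
    rw [← h1]; exact hP0 p hp
  have hzQ : ∀ q ∈ Q', q.2.1 = 0 := fun q hq => hz _ (hSt'.rel q hq).2.1
  set f : Pq → Pq := fun p => (p.2.1, p.2.1, p.2.2) with hf
  set g : Z 2 × Pq → Z 2 × Pq := fun q => (q.1, f q.2) with hg
  have hgi : Set.InjOn g Q' := by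
    intro q hq q' hq' h
    have e0 := hzQ q hq
    have e1 := hzQ q' hq'
    have h1 : q.1 = q'.1 := congrArg (fun t => t.1) h
    have h2 : q.2.2.1 = q'.2.2.1 := congrArg (fun t => t.2.1) h
    have h3 : q.2.2.2 = q'.2.2.2 := congrArg (fun t => t.2.2.2) h
    refine Prod.ext h1 (Prod.ext (by rw [e0, e1]) (Prod.ext h2 h3))
  refine ⟨H', P'.image f, Q'.image g, ?_⟩
  have hcard : (Q'.image g).card = Q'.card := Finset.card_image_of_injOn hgi
  have hH'0 := hSt'.H0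
  have stt : St β G (En43 A R G) H (D ^ (8 * Cg0 + 1)) X K H' (P'.image f) (Q'.image g) := by
    refine { w1 := hK1, D1 := hDf1, H0 := hH'0, pk := ?_, sep := ?_, tg := ?_, rel := ?_, low := ?_, lev1 := ?_, lev2 := ?_ }
    · intro p hp
      obtain ⟨p₀, hp₀, rfl⟩ := Finset.mem_image.1 hp
      exact hSt'.pk p₀ hp₀
    · intro p hp p' hp' hne h1 h2
      obtain ⟨p₀, hp₀, rfl⟩ := Finset.mem_image.1 hp
      obtain ⟨p₁, hp₁, rfl⟩ := Finset.mem_image.1 hp'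
      refine hSt'.sep p₀ hp₀ p₁ hp₁ ?_ (by rw [hz _ hp₀, hz _ hp₁]) h2
      intro h; exact hne (by rw [h])
    · intro κ
      refine le_trans ?_ hDf1
      have : ((((P'.image f).filter fun p => p.2.1 = κ).image fun p => p.1) : Finset (Fin 2 → ℤ)) ⊆ {κ} := by
        intro t ht
        obtain ⟨p, hp, rfl⟩ := Finset.mem_image.1 ht
        obtain ⟨hp, h2⟩ := Finset.mem_filter.1 hp
        obtain ⟨p₀, hp₀, rfl⟩ := Finset.mem_image.1 hp
        rw [Finset.mem_singleton]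
        exact h2
      have h3 := Finset.card_le_card this
      rw [Finset.card_singleton] at h3
      exact_mod_cast h3
    · intro q hq
      obtain ⟨q₀, hq₀, rfl⟩ := Finset.mem_image.1 hq
      obtain ⟨h1, h2, h3⟩ := hSt'.rel q₀ hq₀
      exact ⟨h1, Finset.mem_image_of_mem f h2, h3.trans hDf⟩
    · rw [hcard]
      exact hSt'.low.trans (mul_le_mul_of_nonneg_right hDf (by positivity))
    · exact hSt'.lev1.trans (mul_le_mul_of_nonneg_right hDf (by positivity))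
    · exact hSt'.lev2.trans (mul_le_mul_of_nonneg_right hDf (by positivity))
  refine { toSt := stt, K1 := hK1, Kw := le_rfl, tgd := ?_, tdeg := ?_, top := ?_ }
  · intro p hp
    obtain ⟨p₀, hp₀, rfl⟩ := Finset.mem_image.1 hp
    simp [hf]
  · intro z t
    rw [mul_div_assoc, div_self (by positivity), mul_one]
    -- the points
    have hinj : ((Qzt (Q'.image g) z t).card : ℝ) ≤
        ((((Q'.filter fun q => q.1 = z ∧ q.2.2.1 = t).image fun q => q.2.2.2)).card : ℝ) := by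
      have : Qzt (Q'.image g) z t = (Q'.filter fun q => q.1 = z ∧ q.2.2.1 = t).image g := by
        ext q
        simp only [Qzt, Finset.mem_filter, Finset.mem_image]
        constructor
        · rintro ⟨⟨q₀, hq₀, rfl⟩, h1, h2⟩
          exact ⟨q₀, ⟨hq₀, h1, h2⟩, rfl⟩
        · rintro ⟨q₀, ⟨hq₀, h1, h2⟩, rfl⟩
          exact ⟨⟨q₀, hq₀, rfl⟩, h1, h2⟩
      rw [this]
      have h2 : (((Q'.filter fun q => q.1 = z ∧ q.2.2.1 = t).image fun q => q.2.2.2)).card =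
          (Q'.filter fun q => q.1 = z ∧ q.2.2.1 = t).card := by
        refine Finset.card_image_of_injOn ?_
        intro q hq q' hq' h
        rw [Finset.mem_coe, Finset.mem_filter] at hq hq'
        refine Prod.ext (by rw [hq.2.1, hq'.2.1]) (Prod.ext (by rw [hzQ q hq.1, hzQ q' hq'.1])
          (Prod.ext (by rw [hq.2.2, hq'.2.2]) h))
      rw [h2]
      exact_mod_cast Finset.card_image_le
    refine hinj.trans ?_
    have h4 := hPTS ((Cs ^ 4 * D) ^ Cg0) (Lc K t z)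
      ((Q'.filter fun q => q.1 = z ∧ q.2.2.1 = t).image fun q => q.2.2.2) hD₁ ?_ ?_
    · refine h4.trans ?_
      have h5 : ((Cs ^ 4 * D) ^ Cg0) ^ 4 ≤ D ^ (8 * Cg0) := by
        calc ((Cs ^ 4 * D) ^ Cg0) ^ 4 ≤ (D ^ (2 * Cg0)) ^ 4 := pow_le_pow_left₀ (by positivity) hDD 4
          _ = D ^ (8 * Cg0) := by
            rw [← Real.rpow_natCast, ← Real.rpow_mul (by linarith)]
            congr 1
            push_cast; ring
      rw [Real.rpow_add (by linarith), Real.rpow_one, mul_comm]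
      have h6 : Cp ≤ D := by linarith
      exact mul_le_mul h5 h6 (by linarith) (by positivity)
    · intro x hx x' hx' hne
      obtain ⟨q, hq, rfl⟩ := Finset.mem_image.1 hx
      obtain ⟨q', hq', rfl⟩ := Finset.mem_image.1 hx'
      rw [Finset.mem_filter] at hq hq'
      refine hSt'.sep q.2 (hSt'.rel q hq.1).2.1 q'.2 (hSt'.rel q' hq'.1).2.1 ?_
        (by rw [hzQ q hq.1, hzQ q' hq'.1]) (by rw [hq.2.2, hq'.2.2])
      intro h; exact hne (by rw [h])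
    · intro x hx
      obtain ⟨q, hq, rfl⟩ := Finset.mem_image.1 hx
      rw [Finset.mem_filter] at hq
      have h5 := (hSt'.rel q hq.1).2.2
      rw [hq.2.1, hq.2.2] at h5
      rw [norm_sub_rev]; exact h5
  · intro z
    by_cases hzz : ∃ q₀ ∈ Q, q₀.1 = z
    · obtain ⟨q₀, hq₀, hq₀z⟩ := hzz
      have huni : ∀ q ∈ Q, q.1 = z → q = q₀ := by
        intro q hq hqz
        have h1 := hQ1 z
        rw [Finset.card_le_one] at h1
        exact h1 q (by simp [Qz1, hq, hqz]) q₀ (by simp [Qz1, hq₀, hq₀z])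
      choose V' hV'1 hV'2 using fun j => hTRC (V q₀.2 j) (ctr ((1 : ℕ) : ℝ)⁻¹ q₀.2.2.1) (hV q₀.2 j)
      refine ⟨V', hV'1, ?_⟩
      intro q hq hqz
      obtain ⟨q', hq', rfl⟩ := Finset.mem_image.1 hq
      obtain ⟨q, hqQ, h1, h2, l, hl, h3, j, η, hη, h4⟩ := hQ' q' hq'
      have hqq : q = q₀ := huni q hqQ (h1.trans hqz)
      subst hqq
      refine ⟨j, ctr ((1 : ℕ) : ℝ)⁻¹ q.2.2.1 + η, hV'2 j η hη, ?_⟩
      have h5 := (hcomp 1 K q.2.2.1 l z le_rfl hK1).2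
      rw [one_mul] at h5
      simp only [hg, hf]
      rw [h3, h5]
      have h6 : ctr ((1 : ℕ) : ℝ)⁻¹ q.2.2.1 + ((1 : ℕ) : ℝ)⁻¹ • ctr (K : ℝ)⁻¹ l -
          (ctr ((1 : ℕ) : ℝ)⁻¹ q.2.2.1 + η) = ctr (K : ℝ)⁻¹ l - η := by
        rw [Nat.cast_one, inv_one, one_smul]; abel
      rw [h6]; exact h4
    · obtain ⟨v, hv⟩ := exists_unit
      refine ⟨fun _ => v, fun _ => hv, ?_⟩
      intro q hq hqz
      exfalso
      obtain ⟨q', hq', rfl⟩ := Finset.mem_image.1 hq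
      obtain ⟨q, hqQ, h1, -⟩ := hQ' q' hq'
      exact hzz ⟨q, hqQ, h1.trans hqz⟩

end Pool.Agent.H23.D3
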